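import Pool.Agent.helper46.T6L.SpecO
set_option autoImplicit false
namespace Pool.Agent.T6L
open Finset NumberField Pool.Agent.helper3.FT Pool.Agent.helper47.RA Pool.Agent.T5

theorem OPM_cop {K : Type} [Field K] [NumberField K] (a : Ideal (𝓞 K)) (q : ℕ) (hq : q.Prime)
    (h : ¬ q ∣ Ideal.absNorm a) : IsCoprime (Ideal.span {(q : 𝓞 K)}) a := by
  rw [Ideal.isCoprime_iff_sup_eq, Ideal.eq_top_iff_one]
  have h1 : IsCoprime ((q : ℤ)) ((Ideal.absNorm a : ℕ) : ℤ) := by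
    rw [Nat.isCoprime_iff_coprime]
    exact (Nat.Prime.coprime_iff_not_dvd hq).2 h
  obtain ⟨u, v, huv⟩ := h1
  have h2 : ((u : ℤ) : 𝓞 K) * (q : 𝓞 K) + ((v : ℤ) : 𝓞 K) * ((Ideal.absNorm a : ℕ) : 𝓞 K) = 1 := by
    have := congrArg (fun x : ℤ => (x : 𝓞 K)) huv
    push_cast at this
    exact this
  rw [← h2]
  exact Ideal.add_mem _ (Ideal.mem_sup_left (Ideal.mul_mem_left _ _ (Ideal.mem_span_singleton_self _)))
    (Ideal.mem_sup_right (Ideal.mul_mem_left _ _ (Ideal.absNorm_mem a)))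

theorem OPM : OPM_stmt := by
  intro K _ _ a b ha hb pa pb hco q hq hdvd
  by_cases h : q ∣ Ideal.absNorm a
  · have h2 : ¬ q ∣ Ideal.absNorm b := fun h3 => hq.one_lt.ne' (Nat.eq_one_of_dvd_coprimes hco h h3)
    exact pa q hq ((OPM_cop b q hq h2).dvd_of_dvd_mul_right hdvd)
  · exact pb q hq ((OPM_cop a q hq h).dvd_of_dvd_mul_left hdvd)

end Pool.Agent.T6L
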