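import Pool.Agent.helper46.T6L.OCO
import Pool.Agent.helper28.T6L.OPR
import Pool.Agent.helper46.T6L.OPM
import Pool.Agent.helper75.T6L.OLM
import Pool.Agent.helper65.T6L.ODC
import Pool.Agent.helper55.T6L.OGA
import Pool.Agent.helper55.T6L.OGT
import Pool.Agent.helper55.T6L.OAR
import Pool.Agent.helper27.T6L.OFD
import Pool.Agent.helper68.T6L.OSD
import Pool.Agent.helper58.T6L.OSR
import Pool.Agent.helper15.T6L.OSS
import Pool.Agent.helper27.T6L.OGL
import Pool.Agent.helper33.T6L.OCN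
import Pool.Agent.helper4.T6L.OGD
import Pool.Agent.helper27.T6L.OGS
import Pool.Agent.helper26.T5.AllH
import Pool.Agent.helper26.T5.AllL
import Pool.Agent.helper3.T5.AllA

set_option autoImplicit false

/-!
# T6L, block O: all rows together
-/

namespace Pool.Agent.T6L

open Pool.Agent.T5 Pool.Agent.helper26.T5

/-- conductors: `UB_stmt` implies `GT_stmt` (if a function `h` exists) -/
theorem OGL_of (hUB : Pool.Agent.T6.UB_stmt) : (∃ h : ℤ → ℕ, IsH h) → GT_stmt :=
  OGL (OSD hUB (OFD all_AELE (ODC Pool.Agent.helper26.T5.AllH.aHID OCO (OLM (OPR lpa) OPM) OPM) hcl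
    (OGA lemb lpr hln hpr) (OGT lemb lpr hln Pool.Agent.helper26.T5.AllH.aHSQ) OAR) OAR) (OSS OSR)

/-- good tuples of bounded conductor -/
theorem GD_all : GD_stmt :=
  OGS (OGD all_ALG OCN Pool.Agent.helper26.T5.AllH.aHGA Pool.Agent.helper26.T5.AllL.aLP
    Pool.Agent.helper26.T5.AllL.aLAW lemb)

end Pool.Agent.T6L
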