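import Pool.Agent.helper46.T6L.SpecO
import Pool.Agent.helper4.T6L.Dec

set_option autoImplicit false

namespace Pool.Agent.T6L

open Finset NumberField Pool.Agent.helper3.FT Pool.Agent.helper47.RA Pool.Agent.T5

theorem OCO : OCO_stmt := by
  intro K _ _ Q f t α γ u v θ θ' hD hT hf hZ hL hE p hp hdvd
  have h1 : ((p : 𝓞 K)) ^ (5 * f.factorization p + 5) ∣ θ := by
    rw [Ideal.dvd_span_singleton, id', Ideal.mem_span_singleton] at hdvd
    push_cast at hdvd
    exact hdvd
  have h2 := Pool.Agent.helper4.T6L.gct hE hT hf hZ hL p hp _ h1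
  omega

end Pool.Agent.T6L
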