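import Pool.Agent.helper26.T5.SpecH
import Pool.Agent.helper85.T6L.Defs

set_option autoImplicit false

/-!
# T6L (MP_16912e_nt), block O: all tuples of discriminant `D f ^ 2` (large and bad conductors), good tuples

T6L: `∑ (#Cl(D)[5] - 1) ≥ c N` over `-N < D < 0`.  The block has two outputs (`Pool/Agent/helper85/T6L/Defs.lean`).
`GT_stmt`: few tuples have a large conductor `f`, or a conductor with a large prime factor (NO logarithm is lost).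
`GD_stmt`: the tuples with `f ≤ F₀` coprime to `Z Λ` are at most `C ∑ (#Cl(D)[5] - 1)`.

RULES.  Row `t6l:XXX` is a file `Pool/Agent/<seat>/T6L/XXX.lean`: `import Pool.Agent.helper46.T6L.SpecO`, `set_option autoImplicit false`,
`namespace Pool.Agent.T6L`, the three open lines of this file, and the theorem line of the lock note.  Other rows only as hypotheses.
Auxiliary lemmas are prefixed `XXX_`.  No `convert`, `congr!`, `native_decide`, no double quotes.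
If your statement is a PORT, copy the landed file of T5 (named in the docstring) and change what the docstring says.
-/

namespace Pool.Agent.T6L

open Finset NumberField Pool.Agent.helper3.FT Pool.Agent.helper47.RA Pool.Agent.T5
open Pool.Agent.helper26.T5 (nn LEMB LPR LAW LP LPA HLN HPR HSQ HID HCL HGA)
open Pool.Agent.helper28.LT (rad)

/-! ## Definitions -/

/-- `h D = #Cl(D)[5]` for every quadratic field -/
def IsH (h : ℤ → ℕ) : Prop := ∀ (K : Type) [Field K] [NumberField K], Module.finrank ℚ K = 2 →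
  h (NumberField.discr K) = Nat.card {x : ClassGroup (𝓞 K) // x ^ 5 = 1}

/-- the upper bound, `UB_stmt` of T6 (`Pool/Agent/helper3/T6/DefsH.lean`), the same text -/
def UBH_stmt : Prop := ∃ C : ℝ, 0 ≤ C ∧ ∀ h : ℤ → ℕ, IsH h → ∀ (N : ℕ) (s : Finset ℤ),
  (∀ D ∈ s, IsFund D ∧ D < 0 ∧ |D| < N) → ∑ D ∈ s, (h D : ℝ) ≤ C * N

theorem UBH_iff : UBH_stmt ↔ Pool.Agent.T6.UB_stmt := Iff.rfl

/-- `b₀ = gcd (z, (f rad f) ^ 2)`: its exponent at `p ∣ f` is `min (v_p z) (2 v_p f + 2)` -/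
def ff (f z : ℕ) : ℕ := Nat.gcd z ((f * rad f) ^ 2)

/-- the product of the primes dividing `f` and not `b` -/
def rb (f b : ℕ) : ℕ := ∏ p ∈ f.primeFactors.filter (fun p => ¬ p ∣ b), p

/-- `lcm (rad f, f / gcd (f, z ^ 2))` -/
def sl (f z : ℕ) : ℕ := Nat.lcm (rad f) (f / Nat.gcd f (z ^ 2))

/-- `∏ p ^ max (4, v_p f + 1)` -/
def WW (f : ℕ) : ℕ := ∏ p ∈ f.primeFactors, p ^ max 4 (f.factorization p + 1)

/-- the weight of a conductor -/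
noncomputable def gw (f : ℕ) : ℝ :=
  49 ^ f.primeFactors.card * ((f ^ 4).divisors.card : ℝ) * ((f ^ 20).divisors.card : ℝ) ^ 2 / √(WW f : ℝ)

/-- the ideal of an integer -/
abbrev id' (K : Type) [Field K] [NumberField K] (m : ℕ) : Ideal (𝓞 K) := Ideal.span {(m : 𝓞 K)}

/-! ## The ideal of `θ` -/

/-- **OCO** (short to medium).  The content of `θ`.
PROOF.  `a = f.factorization p`.  Suppose `c = p ^ (5 a + 5)` divides `θ` (`Ideal.span_singleton` and `Ideal.dvd_span_singleton`).  From `Els` (cancel nonzero integers, `t.2.2.2`, `lam t` are positive): `α⁵ = θ² θ'` (multiply by `Λ⁴ Z²`: `Λ⁴ Z² θ² θ' = (α² γ̄)² γ² α = α⁵ (γ γ̄)² = α⁵ Z² Λ⁴`)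
and `γ⁵ = θ̄ θ'²` (multiply by `Λ² Z⁴`: `(ᾱ² γ) (γ² α)² = γ⁵ (α ᾱ)² = γ⁵ Z⁴ Λ²`).  So `(p ^ (2 a + 2)) ^ 5 = c ^ 2 ∣ α⁵`, so `p ^ (2 a + 2) ∣ α` (fifth powers in `𝓞 K`: `UniqueFactorizationMonoid` for ideals as in HID (d) of `Pool/Agent/helper26/T5/HID.lean`, or `IsIntegrallyClosed`: `(α / p ^ (2a+2)) ^ 5` is integral),
so `p ^ (2 a + 2) ∣ Q.Y α = f n` (`Q.Y_int_mul`), so `p ∣ n` (`p ^ (a + 1)` does not divide `f`: `Nat.pow_succ_factorization_not_dvd`).  `c = cj c` divides `θ̄`, so `(p ^ (a + 1)) ^ 5 ∣ γ⁵`, `p ^ (a + 1) ∣ γ`, `p ^ (a + 1) ∣ Q.Y γ = f k`, `p ∣ k`.  Contradiction with `IsT.co`.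
(`p` need not divide `f`; then `a = 0` and the proof is the same.) -/
def OCO_stmt : Prop := ∀ (K : Type) [Field K] [NumberField K] (Q : QF K) (f : ℕ) (t : Tpl)
  (α γ u v θ θ' : 𝓞 K), Q.D < 0 → IsT t → 1 ≤ f → 0 < t.2.2.2 → 0 < lam t →
  Els Q f t α γ u v θ θ' → ∀ p : ℕ, p.Prime → ¬ id' K (p ^ (5 * f.factorization p + 5)) ∣ Ideal.span {θ}

/-- **OPR** (medium).  One prime.
PROOF.  If `m ≤ 2 c` take `P = ⊤` (exponent `0`; `Prim 1`: `(q) ∣ ⊤` gives `q ^ 2 = absNorm (q) = 1`, `h96_norm_q`).  Let `m > 2 c`.  Let `c'` be the largest number with `(p ^ c') ∣ A` (`Nat.findGreatest` or `Nat.find` for the least `j` with `¬ (p ^ (j + 1)) ∣ A`), `c' ≤ c`; `A = (p ^ c') A'`, `¬ (p) ∣ A'`.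
`absNorm (p ^ c') = p ^ (2 c')` (`h96_norm_q`), so `p ^ (m - 2 c') ∣ absNorm A'`, and `x = m - 2 c ≤ m - 2 c'`, `x ≥ 1`.  `P = A' ⊔ (p)`: `P ≠ ⊤` (otherwise `x₁ + p y = 1` with `x₁ ∈ A'`; then `A'` and `(p)` are coprime and `absNorm A'` is prime to `p`; as in ROW LPA, `Pool/Agent/helper58/T5/LPA.lean`),
`absNorm P = p` by `h96_gcd_q` (it needs only `¬ (p) ∣ A'`), `P` is prime (`h96_prime_of_norm`).
`P ^ x ∣ A'`: write `A' = P ^ y A''` with `y` maximal (`P ∤ A''`; for instance `y` = the multiplicity, `A' ≠ ⊥`).  If `y < x` then `p ∣ absNorm A''` (`absNorm A' = p ^ y absNorm A''`), so `A'' ⊔ (p) ≠ ⊤` (as before), it lies in a maximal ideal `P'`; `P' ≥ A' ⊔ (p) = P` and `P` is maximal, so `P' = P` and `A'' ≤ P`, `P ∣ A''`: contradiction.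
So `P ^ x ∣ A' ∣ A`.  `absNorm (P ^ x) = p ^ x`.  `Prim (P ^ x)`: if `(q) ∣ P ^ x` then `q ^ 2 ∣ p ^ x`, so `q = p`, and `(p) ∣ P ^ x ∣ A'`: contradiction. -/
def OPR_stmt : Prop := ∀ (K : Type) [Field K] [NumberField K] (_ : QF K) (A : Ideal (𝓞 K)) (p m c : ℕ),
  p.Prime → A ≠ ⊥ → p ^ m ∣ Ideal.absNorm A → ¬ id' K (p ^ (c + 1)) ∣ A →
  ∃ P : Ideal (𝓞 K), P ^ (m - 2 * c) ∣ A ∧ Prim (P ^ (m - 2 * c)) ∧
    Ideal.absNorm (P ^ (m - 2 * c)) = p ^ (m - 2 * c)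

/-- **OPM** (short).  Products of primitive ideals.
PROOF.  Let `q` be a prime with `(q) ∣ a b`.  `q` does not divide both norms; say `q ∤ absNorm a`.  Then `(q) ⊔ a = ⊤` (`absNorm a ∈ a` by `Ideal.absNorm_mem`, `q ∈ (q)` and `absNorm a` are coprime integers), so `(q) ∣ b` (`IsCoprime.dvd_of_dvd_mul_left`): against `Prim b`.  In the same way if `q ∤ absNorm b`. -/
def OPM_stmt : Prop := ∀ (K : Type) [Field K] [NumberField K] (a b : Ideal (𝓞 K)), a ≠ ⊥ → b ≠ ⊥ →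
  Prim a → Prim b → Nat.Coprime (Ideal.absNorm a) (Ideal.absNorm b) → Prim (a * b)

/-- **OLM** (medium; from OPR, OPM).  Fifth powers out of `A`.
PROOF.  For `p ∣ b` let `e = b.factorization p`, `a = f.factorization p ≥ 1`, `j_p = e - (2 a + 2)` (truncated).  Claim, by `Finset.induction` on `T ⊆ b.primeFactors`: there are `B, A₀` with `A = B ^ 5 A₀`, `B ≠ ⊥`, `Prim B`, `absNorm B = ∏ p ∈ T, p ^ j_p`.  `T = ∅`: `B = ⊤`.
Step `q ∉ T`: `absNorm A₀ (∏_T p ^ j_p) ^ 5 = b ^ 5`, so `q ^ (5 e) ∣ absNorm A₀` (`q` is prime to the product).  `¬ (q ^ (5 a + 5)) ∣ A₀` because `A₀ ∣ A`.  OPR with `m = 5 e`, `c = 5 a + 4`: `P ^ (5 e - 10 a - 8) ∣ A₀`.  If `j_q = 0` nothing to do (`q ^ 0 = 1`).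
If `j_q ≥ 1`: `5 j_q = 5 e - 10 a - 10 ≤ 5 e - 10 a - 8 =: x`, so `(P ^ j_q) ^ 5 ∣ P ^ x ∣ A₀`, `A₀ = (P ^ j_q) ^ 5 A₁`; `absNorm (P ^ x) = q ^ x`, `x ≥ 1`, gives `absNorm P = q`; `Prim (P ^ j_q)` (`P ^ j_q ∣ P ^ x`).  `B' = B P ^ j_q`: `Prim` by OPM (norms `∏_T` and `q ^ j_q` are coprime).
For `T = b.primeFactors`: `absNorm B * ff f b = b`, because for `p ∣ b` the exponent of `p` in `ff f b = gcd (b, (f rad f) ^ 2)` is `min e (2 a + 2)` (`rad f` has exponent one at every `p ∣ f`) and `j_p + min e (2 a + 2) = e` (`Nat.eq_of_factorization_eq`).  `absNorm A₀ = (ff f b) ^ 5` from `absNorm B ^ 5 absNorm A₀ = b ^ 5`. -/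
def OLM_stmt : Prop := ∀ (K : Type) [Field K] [NumberField K] (_ : QF K) (f b : ℕ) (A : Ideal (𝓞 K)),
  1 ≤ f → 1 ≤ b → (∀ p : ℕ, p.Prime → p ∣ b → p ∣ f) → Ideal.absNorm A = b ^ 5 →
  (∀ p : ℕ, p.Prime → ¬ id' K (p ^ (5 * f.factorization p + 5)) ∣ A) →
  ∃ B A₀ : Ideal (𝓞 K), B ≠ ⊥ ∧ Prim B ∧ A = B ^ 5 * A₀ ∧ Ideal.absNorm B * ff f b = b ∧
    Ideal.absNorm A₀ = ff f b ^ 5

/-- **ODC** (short to medium; from HID (landed), OCO, OLM, OPM).  The decomposition of `(θ)`.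
PROOF.  `FA_split` (`Pool/Agent/helper26/LT/FA.lean`, used in `Pool/Agent/helper78/T5/HFD.lean`) gives `t.2.2.2 = b g`, `g` coprime to `f`, the primes of `b` divide `f`; so `z = b g`.  HID: `a₀, A₁` with `a₀ ≠ ⊥`, `Prim a₀`, `absNorm a₀ = g`, `absNorm A₁ = b ^ 5`, `(θ) = a₀ ^ 5 A₁`.
For a prime `p`: `A₁ ∣ (θ)`, so OCO gives the last hypothesis of OLM: `A₁ = B ^ 5 A`, `absNorm B * ff f b = b`, `absNorm A = ff f b ^ 5`.  `ff f z = gcd (b g, (f rad f) ^ 2) = ff f b` (`g` is coprime to `f` and to `rad f`).  `a = a₀ B`: `absNorm a * ff f z = g b = z`;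
`Prim a` by OPM (`absNorm B ∣ b` and `b` is coprime to `g`, because the primes of `b` divide `f`).  `(θ) = a₀ ^ 5 B ^ 5 A = a ^ 5 A`. -/
def ODC_stmt : Prop := ∀ (K : Type) [Field K] [NumberField K] (Q : QF K) (f : ℕ) (t : Tpl)
  (α γ u v θ θ' : 𝓞 K) (z : ℕ), Q.D < 0 → IsT t → 1 ≤ f → 0 < t.2.2.2 → 0 < lam t →
  Els Q f t α γ u v θ θ' → t.2.2.2 = (z : ℤ) →
  ∃ a A : Ideal (𝓞 K), a ≠ ⊥ ∧ Prim a ∧ Ideal.absNorm a * ff f z = z ∧ Ideal.absNorm A = ff f z ^ 5 ∧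
    Ideal.span {θ} = a ^ 5 * A

/-! ## Counting for one field and one conductor -/

/-- **OGA** (short, PORT of `Pool/Agent/helper42/T5/HGA.lean`).  The ideals `a` in one class; the norm of `a` may have common primes with `f`.
PROOF.  The proof of HGA with two changes.  (1) The hypothesis `Coprime (absNorm a) f` is used only for `p ∣ f`, `p ∤ b` (the step `p ∣ g₀ Y x`, `p ∤ g₀`): use the third hypothesis here.  (2) The last estimate `rad f ≤ b r` is omitted, `r = rb f b` (the bound in the fibre is already `1 + 2 π Y / (b r √|D|)`). -/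
def OGA_stmt : Prop := ∀ (K : Type) [Field K] [NumberField K] (Q : QF K) (f b : ℕ) (A : Ideal (𝓞 K))
  (Y : ℝ), Q.D < 0 → 1 ≤ f → (∀ p : ℕ, p.Prime → p ∣ f → 5 < p) → 1 ≤ b →
  Ideal.absNorm A = b ^ 5 → 0 < Y → ∀ S : Finset (Ideal (𝓞 K)),
  (∀ a ∈ S, a ≠ ⊥ ∧ Prim a ∧ (∀ p : ℕ, p.Prime → p ∣ f → ¬ p ∣ b → ¬ p ∣ Ideal.absNorm a) ∧
    (b : ℝ) * Ideal.absNorm a ≤ Y ∧ ∃ θ : 𝓞 K, Ideal.span {θ} = a ^ 5 * A ∧ (f : ℤ) ∣ Q.Y θ) →
  (∀ a ∈ S, ∀ a' ∈ S, (a * Q.bar a').IsPrincipal) →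
  (S.card : ℝ) ≤ 6 ^ f.primeFactors.card *
    (1 + 2 * Real.pi * Y / ((b : ℝ) * rb f b * √|(Q.D : ℝ)|)) + 1

/-- **OGT** (short, PORT of `Pool/Agent/helper63/T5/HGT.lean`).  The tuples with given `θ` and `Z = z`.
PROOF.  The proof of HGT; in addition `f ∣ Y (ᾱ_s α_t)` (`Q.h96_Y_mul`, `Q.h96_Y_cj`: `Y (x̄ y) = re x Y y - ...`, both `Y α` are multiples of `f`; it is zero modulo `f` because `α_s`, `α_t` are congruent to integers modulo `f`) and `ᾱ_s α_t = Z² x_st`, so `f ∣ z² Y x_st`, so `f / gcd (f, z²) ∣ Y x_st`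
(`Nat.Coprime.dvd_of_dvd_mul_left` with `Nat.coprime_div_gcd_div_gcd`).  Together with `rad f ∣ Y x_st` (equal labels): `sl f z ∣ Y x_st` (`Nat.lcm_dvd`).  `LPR` with `V = Z² (sl f z) √|D| / 2`. -/
def OGT_stmt : Prop := ∀ (K : Type) [Field K] [NumberField K] (Q : QF K) (f z : ℕ) (θ : 𝓞 K) (X : ℝ),
  Q.D < 0 → 1 ≤ f → (∀ p : ℕ, p.Prime → p ∣ f → 5 < p) → 0 < X → ∀ F : Finset Tpl,
  (∀ t ∈ F, IsT t ∧ 0 < t.2.2.2 ∧ t.2.2.2 = (z : ℤ) ∧ 0 < lam t ∧ (lam t : ℝ) ≤ X ∧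
    ∃ α γ u v θ' : 𝓞 K, Els Q f t α γ u v θ θ') →
  (F.card : ℝ) ≤ 7 ^ f.primeFactors.card * (1 + 2 * Real.pi * X / ((sl f z : ℝ) * √|(Q.D : ℝ)|))

/-- **OAR** (short to medium).  Arithmetic of `ff`, `sl`, `WW`.
PROOF.  (1) `b = ff f z` divides `(f rad f) ^ 2`, and `rad f ∣ f`.  `b ≥ 1` because `f ≥ 1`.  (2) If `p ∣ f` and `p ∣ z` then `p ∣ (f rad f) ^ 2`, so `p ∣ gcd`.  (3) `gcd (f, z ^ 2) = gcd (f, b ^ 2)`: `b ∣ z` gives one divisibility; `d = gcd (f, z ^ 2)` divides `z ^ 2` and `f ∣ (f rad f) ^ 4`, so it divides `gcd (z ^ 2, ((f rad f) ^ 2) ^ 2) = b ^ 2`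
(`Nat.pow_gcd_pow` or factorizations).  So `sl f z = sl f b`.
(4) For `p ∣ f`: `a = f.factorization p ≥ 1`, `e = b.factorization p`, `i = 1` if `e = 0`, else `0`.  `u = ∏ p ∣ f, p ^ (a - (e + i))` (truncated): `f ≤ b (rb f b) u`, because `f = ∏ p ^ a`, `∏_{p ∣ f} p ^ e ∣ b`, `rb f b = ∏ p ^ i`, `a ≤ e + i + (a - (e + i))`.  `u ≥ 1`, so `max 1 (f / (b rb)) ≤ u`.
The exponent of `p` in `sl f b` is `max 1 (a - min a (2 e))`, so `f = (sl f b) x`, `x = ∏ p ^ (a - max 1 (a - min a (2 e)))`.  It remains `(u x) ^ 2 WW f ≤ f ^ 4`; exponent by exponent (`Finset.prod_le_prod'`, `f ^ 4 = ∏ p ^ (4 a)`):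
`2 (a - (e + i)) + 2 (a - max 1 (a - min a (2 e))) + max 4 (a + 1) ≤ 4 a` for `a ≥ 1`: `e = 0`: `2 (a - 1) + 0 + max 4 (a + 1) ≤ 4 a`; `1 ≤ e`, `2 e ≤ a - 1` (`a ≥ 3`): `2 (a - e) + 4 e + a + 1 ≤ 4 a`; `1 ≤ e ≤ a`, `2 e ≥ a`: `2 (a - e) + 2 (a - 1) + max 4 (a + 1) ≤ 4 a`; `e > a`: `2 (a - 1) + max 4 (a + 1) ≤ 4 a`
(`omega` after splitting the maxima). -/
def OAR_stmt : Prop :=
  (∀ f z : ℕ, 1 ≤ f → 1 ≤ z → 1 ≤ ff f z ∧ ff f z ∣ z ∧ ff f z ∣ f ^ 4 ∧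
    (∀ p : ℕ, p.Prime → p ∣ f → ¬ p ∣ ff f z → ¬ p ∣ z) ∧ sl f z = sl f (ff f z)) ∧
  (∀ f b : ℕ, 1 ≤ f → 1 ≤ b → 1 ≤ sl f b ∧ sl f b ≤ f ∧ 1 ≤ rb f b ∧
    max 1 ((f : ℝ) / ((b : ℝ) * rb f b)) * ((f : ℝ) / sl f b) * √(WW f : ℝ) ≤ (f : ℝ) ^ 2)

/-- **OFD** (medium, PORT of `Pool/Agent/helper78/T5/HFD.lean`; from `AELE_stmt`, ODC, `HCL` (landed), OGA, OGT, OAR).  The tuples of discriminant `D f ^ 2` with `ff f Z = b`.
PROOF.  As HFD.  For `t ∈ F` take the elements (`AELE_stmt`), `z = t.2.2.2.toNat`, `a, A` from ODC: `absNorm a * b = z`, `absNorm A = b ^ 5`.  `A ∣ (b ^ 5)` (`HFD_dvd` with `M = b`): at most `τ(b ^ 5) ^ 2` ideals `A` (`FC_ideal`).  For a fixed `A` the number of `a` is at most `#Cl[5] (6 ^ ω (..) + 1)` by `HCL` and OGA: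
`b absNorm a = z ≤ Y`, `f ∣ Y θ`, and for `p ∣ f`, `p ∤ b`: `p ∤ z` (OAR), `absNorm a ∣ z`.  For fixed `A, a` the number `z = b absNorm a` is fixed, the `θ_t` generate the same ideal: at most `12` values (`HFD_gen`), and OGT for each (`sl f z = sl f b` by OAR).  (`FC_step` of `Pool/Agent/helper83/LT/FC.lean` as in HFD, without the step for `b`.) -/
def OFD_stmt : Prop := ∀ (K : Type) [Field K] [NumberField K] (Q : QF K) (f b : ℕ) (Y X : ℝ),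
  Module.finrank ℚ K = 2 → Q.D < 0 → 1 ≤ f → (∀ p : ℕ, p.Prime → p ∣ f → 5 < p) → 0 < Y → 0 < X →
  ∀ F : Finset Tpl, (∀ t ∈ F, IsT t ∧ 0 < t.2.2.2 ∧ (t.2.2.2 : ℝ) ≤ Y ∧ 0 < lam t ∧
    (lam t : ℝ) ≤ X ∧ dis t = Q.D * (f : ℤ) ^ 2 ∧ ff f t.2.2.2.toNat = b) →
  (F.card : ℝ) ≤ ((b ^ 5).divisors.card : ℝ) ^ 2 *
    ((Nat.card {x : ClassGroup (𝓞 K) // x ^ 5 = 1} : ℝ) *
      (6 ^ f.primeFactors.card * (1 + 2 * Real.pi * Y / ((b : ℝ) * rb f b * √|(Q.D : ℝ)|)) + 1)) *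
    (12 * (7 ^ f.primeFactors.card * (1 + 2 * Real.pi * X / ((sl f b : ℝ) * √|(Q.D : ℝ)|))))

/-! ## Sums over discriminants and conductors -/

/-- **OSD** (medium, compare `Pool/Agent/helper68/T5/HSD.lean`; from OFD, OAR, UBH).  One conductor, all discriminants.
PROOF.  Let `D₀` be the number of `t ∈ F`, `dis t = D₀ f ^ 2`: `(N / 4) / f ^ 2 ≤ - D₀ ≤ N / f ^ 2`; `s` the (finite) set of these `D₀`; for `D ∈ s` choose `E : Fld D` (`HSD_fld` or `exists_QF` of `Pool/Agent/helper3/FT/Fin.lean`), `h D = #Cl[5]` of `E.K` (`IsH`, `E.fin`, `E.dK`).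
Let `G = 1 + 4 π`.  `√|D| ≥ √N / (2 f)`, so with `Y = X = √N`: `2 π √N / (b r √|D|) ≤ 4 π f / (b r)`, `r = rb f b`, and `6 ^ ω (1 + w) + 1 ≤ 2 * 7 ^ ω (1 + w)` for `w ≥ 0`; so the second factor of OFD is at most `h D * 2 * 7 ^ ω * G * max 1 (f / (b r))`
and the third at most `12 * 7 ^ ω * G * (f / sl f b)` (`sl f b ≤ f`).  With OAR: for fixed `D` and `b` at most `24 * 49 ^ ω G ^ 2 τ(b ^ 5) ^ 2 (h D) f ^ 2 / √(WW f)` tuples; `b ∣ f ^ 4` (OAR, `z = t.2.2.2.toNat`), `b ^ 5 ∣ f ^ 20`, so summing over the divisors `b` of `f ^ 4`: at most `24 G ^ 2 (gw f) (h D) f ^ 2`.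
Sum over `D ∈ s`: if `s` is empty nothing to prove; otherwise `N / f ^ 2 ≥ - D ≥ 1`, `M = ⌊N / f ^ 2⌋₊ + 1 ≤ 2 N / f ^ 2`, `|D| < M`, UBH: `∑ h D ≤ C₀ M ≤ 2 C₀ N / f ^ 2`.  Total `≤ 48 C₀ G ^ 2 (gw f) N`. -/
def OSD_stmt : Prop := ∃ C : ℝ, 1 ≤ C ∧ ∀ h : ℤ → ℕ, IsH h → ∀ (N : ℝ) (f : ℕ), 1 ≤ N → 1 ≤ f →
  (∀ p : ℕ, p.Prime → p ∣ f → 5 < p) → ∀ F : Finset Tpl,
  (∀ t ∈ F, Tn N t ∧ ∃ D₀ : ℤ, IsFund D₀ ∧ dis t = D₀ * (f : ℤ) ^ 2) → (F.card : ℝ) ≤ C * gw f * N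

/-- **OSR** (medium).  Conductors with a given radical.
PROOF.  For `p` and `a ≥ 1` let `g p a = 49 (4 a + 1) (20 a + 1) ^ 2 / √(p ^ max 4 (a + 1))`; `gw f = ∏ p ∣ f, g p (f.factorization p)` (`Nat.card_divisors`, `Nat.factorization_pow`, `Nat.primeFactors_pow`; the square root of a product).  For a prime `p`: `p ^ max 4 (a + 1) ≥ p ^ 4 * 2 ^ (a - 3)` (truncated difference), so
`g p a ≤ p ^ (-2) κ_a`, `κ_a = 49 (4 a + 1) (20 a + 1) ^ 2 / √(2 ^ (a - 3))`, and `K = 1 + ∑ κ_a < ∞` (`summable_pow_mul_geometric_of_norm_lt_one` with ratio `1 / √2`).  The elements `f` of `s` have `f.primeFactors = R.primeFactors =: T` (`rad f = R`: the primes of `rad f` are those of `f`) and are determined by `a : T → ℕ`, `a_p = f.factorization p ∈ [1, B]`,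
`B` the maximum; so `∑_{f ∈ s} gw f ≤ ∑_a ∏_{p ∈ T} g p a_p = ∏_{p ∈ T} ∑_{a = 1}^B g p a ≤ ∏_{p ∈ T} K / p ^ 2 = K ^ #T / (∏ p) ^ 2` (`Finset.prod_univ_sum` or `Finset.prod_sum`), and `∏_{p ∈ T} p = R` (`R = rad f`). -/
def OSR_stmt : Prop := ∃ K : ℝ, 1 ≤ K ∧ ∀ (s : Finset ℕ) (R : ℕ), (∀ f ∈ s, 1 ≤ f ∧ rad f = R) →
  ∑ f ∈ s, gw f ≤ K ^ R.primeFactors.card / (R : ℝ) ^ 2

/-- **OSS** (short to medium; from OSR and `Pool.Agent.helper47.RA.card_divisors_le`).  All conductors.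
PROOF.  (0) `ψ(R) = K ^ ω(R) / R ^ 2`.  `K ≤ 2 ^ j`, `2 ^ ω(R) ≤ τ(R) ≤ C' R ^ (1 / (2 j))`, so `K ^ ω(R) ≤ C'' √R` and `∑_{R ∈ T} ψ(R) ≤ C'' ∑ R ^ (-3/2) =: C₁` for every finset `T` of positive integers (`Real.summable_nat_rpow_inv`, `Summable.sum_le_tsum`).
(1) `gw ≥ 0`; sort `s` by `R = rad f ≥ 1` (`Finset.sum_fiberwise_of_maps_to`): `∑ gw f ≤ ∑_R ψ(R) ≤ C₁`.  (2) Now every `R` is divisible by a prime `p > P`, `R = p m` with `p ∤ m` (`R = rad f` is squarefree), `ψ(R) = (K / p ^ 2) ψ(m)`.  `R ↦ (p, m)` is injective, so `∑_R ψ(R) ≤ (∑_{n > P} K / n ^ 2) C₁ ≤ (2 K / P) C₁`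
(`∑_{n > P} 1 / n ^ 2 ≤ 2 / P` for `P ≥ 1`, compare (1) of `Pool/Agent/helper68/T5/HSM.lean`). -/
def OSS_stmt : Prop := ∃ C : ℝ, 1 ≤ C ∧ (∀ s : Finset ℕ, (∀ f ∈ s, 1 ≤ f) → ∑ f ∈ s, gw f ≤ C) ∧
  ∀ (P : ℝ) (s : Finset ℕ), 1 ≤ P → (∀ f ∈ s, 1 ≤ f ∧ ∃ p : ℕ, p.Prime ∧ p ∣ f ∧ P < p) →
    ∑ f ∈ s, gw f ≤ C / P

/-- **OGL** (short to medium; from OSD, OSS, and the existence of `h`).  OUTPUT ONE: `GT_stmt`.  The row is the theorem of the lock note, this `def` is its statement.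
PROOF.  `f ≥ 1` because `dis t ≠ 0`.  Choose `f_t` for `t ∈ F`, sort `F` by `f_t` and apply OSD (with the given `h`) to every fibre: `#F ≤ C₁ N ∑_{f ∈ s} gw f`, `s` the image.  `s = s₁ ∪ s₂`, `s₂` the `f` with a prime factor `> P`: `∑_{s₂} gw f ≤ C₂ / P` (OSS).  `gw ≥ 0` is summable on the positive integers (OSS (1), `summable_of_sum_le`),
so there is a finite set `s₀` (depending on `P`) such that `∑_{f ∈ s₁} gw f ≤ 1 / P` for every finite `s₁` disjoint from `s₀` (`Summable.vanishing` or `summable_iff_vanishing_norm`); `F₀ = s₀.sup id`; the elements of `s₁` are `> F₀`.  `C = C₁ (C₂ + 1)`, and `1 / P ≤ P ^ (-0.98)` for `P ≥ 1`. -/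
def OGL_stmt : Prop := (∃ h : ℤ → ℕ, IsH h) → GT_stmt

/-! ## Good tuples -/

/-- **OCN** (short, PORT of `Pool/Agent/helper96/T5/HCL.lean` with `A = ⊤`).  Sorting by nontrivial classes.
PROOF.  The classes which occur satisfy `c ^ 5 = 1` and `c ≠ 1` (`ClassGroup.mk0_eq_one_iff`), so there are at most `#{c | c ^ 5 = 1} - 1` of them (the class `1` is one of the elements of the finite type). -/
def OCN_stmt : Prop := ∀ (K : Type) [Field K] [NumberField K] (Q : QF K) (B : ℝ),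
  0 ≤ B → ∀ S : Finset (Ideal (𝓞 K)), (∀ a ∈ S, a ≠ ⊥ ∧ (a ^ 5).IsPrincipal ∧ ¬ a.IsPrincipal) →
  (∀ T ⊆ S, (∀ a ∈ T, ∀ a' ∈ T, (a * Q.bar a').IsPrincipal) → (T.card : ℝ) ≤ B) →
  (S.card : ℝ) ≤ ((Nat.card {x : ClassGroup (𝓞 K) // x ^ 5 = 1} : ℝ) - 1) * B

/-- **OGD** (short to medium; from `ALG_stmt`, OCN, `HGA`, `LP`, `LAW`, `LEMB` (all landed)).  The good tuples of one field and one conductor.
PROOF.  `ALG_stmt` (`D < -4`): `φ`, and for `t ∈ F` (`0 < t.2.2.2`, `IsCoprime`): `a, α, γ` with `Adm`, `gd Q α γ = f`, `φ a α = t`, `(a ^ 5).IsPrincipal`, and `a` is not principal, because `1 < Z` and `4 Z ≤ 4 Y < -D`.  `t ↦ (a, α)` is injective (`t = φ a α`).  `TupOf.Z`: `absNorm a = Z ≤ Y`; `TupOf.L`: `lamI a α = lam t ≤ X`.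
(1) the set `S` of the ideals `a`: OCN with `B = 2 + 2 π Y / √|D|`: for a subset `T` in one class apply `HGA` with `f = 1`, `b = 1`, `A = ⊤` (`a ^ 5 = (θ)`, `1 ∣ Y θ`, no prime divides `1`, `rad 1 = 1`, `6 ^ 0 = 1`).  (2) for one `a`: `LP` with `f = r = 1`, `T = X`: `α ∈ AL Q a X` (`v₁ α ^ 2 = nn α = Z ^ 2 lamI a α`: `LEMB`, first clause of `LAW`;
`Adm.n0`), `Cont1 a α` is `Adm.pL`; `1 * absNorm a ^ 2 ∣ nn α` by `LAW`: at most `1 + 2 π X / √|D|` elements `α`. -/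
def OGD_stmt : Prop := ∀ (K : Type) [Field K] [NumberField K] (Q : QF K) (f : ℕ) (Y X : ℝ),
  Module.finrank ℚ K = 2 → Q.D < -4 → 1 ≤ f → 0 < Y → 0 < X → 4 * Y < -(Q.D : ℝ) →
  ∀ F : Finset Tpl, (∀ t ∈ F, IsT t ∧ 1 < t.2.2.2 ∧ (t.2.2.2 : ℝ) ≤ Y ∧ 0 < lam t ∧
    (lam t : ℝ) ≤ X ∧ dis t = Q.D * (f : ℤ) ^ 2 ∧ IsCoprime (f : ℤ) (t.2.2.2 * lam t)) →
  (F.card : ℝ) ≤ ((Nat.card {x : ClassGroup (𝓞 K) // x ^ 5 = 1} : ℝ) - 1) *
    (2 + 2 * Real.pi * Y / √|(Q.D : ℝ)|) * (1 + 2 * Real.pi * X / √|(Q.D : ℝ)|)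

/-- **OGS** (short to medium; from OGD).  OUTPUT TWO: `GD_stmt`.
PROOF.  `F₀ = 0`: `F` is empty.  For `t ∈ F`, `(f, D₀)`: `N / (4 F₀ ^ 2) ≤ N / (4 f ^ 2) ≤ -D₀ ≤ N` (`Tn.d1`, `Tn.d2`), so `D₀` is in the index set, and for `N ≥ N₀ (F₀)`: `4 √N < N / (4 F₀ ^ 2) ≤ -D₀` and `4 < -D₀`.  `√|D₀| ≥ √N / (2 F₀)`, so OGD with `Y = X = √N` gives at most `(h D₀ - 1) (2 + 4 π F₀) ^ 2` tuples for every pair `(D₀, f)`
(`Fld D₀`: `HSD_fld` of `Pool/Agent/helper68/T5/HSD.lean`; `h D₀ = #Cl[5]` by `E.fin`, `E.dK`).  Sum over the `D` (the terms `h D - 1` are nonnegative: a field of discriminant `D` exists, `h D = Nat.card` of a nonempty finite type) and `1 ≤ f ≤ F₀`: `C = 1 + F₀ (2 + 4 π F₀) ^ 2`. -/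
def OGS_stmt : Prop := GD_stmt

end Pool.Agent.T6L
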